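import Pool.Agent.H12.RS.FaceGf

/-!
# H56.RS.Z: the face 0 of the rule R* (faceZ)
-/

set_option autoImplicit false
set_option linter.unusedSectionVars false

namespace Pool.Agent.H56.RS

open Finset Pool.Agent.H93.EA Pool.Agent.H69L.TP Pool.Agent.H12.RS Pool.Agent.H53.ES
open Pool.Agent.H85.TK (zs be Cb rel cb_const zs_add zs_le zs_succ)

section word

variable {c r : ℕ} {I : Finset ℕ} {w : ℕ → Bool}

/-- no windows over ones -/
theorem tail_ones (hw : Cb c r I w) (hcr : c ≤ r) {b : ℕ} (hb : b ≤ c)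
    (h1 : ∀ i, b ≤ i → i < c → w (r + i) = true) :
    ((W c r I w).filter fun f => b ≤ f).card = 0 := by
  have h := W_tail hw hcr (fun b hb => Pool.Agent.H85.RS.X_e hcr hb) hb
  have h2 : zs w (r + b) (r + c) = 0 := by
    unfold zs
    rw [card_eq_zero, filter_eq_empty_iff]
    intro i hi
    rw [mem_Ico] at hi
    have := h1 (i - r) (by omega) (by omega)
    rw [show r + (i - r) = i by omega] at this
    rw [this]
    simp
  omega

/-- the windows from the end of a block on -/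
theorem tail_blk (hcr : c ≤ r) {b : ℕ} (hb : b ≤ c) (h : b = 0 ∨ r + b ∉ I) :
    ((W c r I w).filter fun f => b ≤ f).card ≤ zs w b c := by
  have h1 := split_card (W c r I w) b
  rw [W_card hcr] at h1
  have h2 := Kc_end (c := c) (r := r) (I := I) (w := w) hb (h.imp_right Or.inr)
  unfold Kc at h2
  have h3 := zs_add (Nat.zero_le b) hb w
  have h4 := A_add (I := I) (w := w) hcr
  have h5 : P c r I w b = min (A c r I w) (zs w 0 b) := rfl
  omega

theorem sum_ind {S : Finset ℕ} (hS : S ⊆ range c) (b : ℕ) :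
    ∑ f ∈ Ico b c, (if f ∈ S then (1 : ℝ) else 0) = ((S.filter fun f => b ≤ f).card : ℝ) := by
  rw [sum_boole]
  congr 2
  ext f
  simp only [mem_filter, mem_Ico]
  constructor
  · rintro ⟨⟨h1, _⟩, h2⟩
    exact ⟨h2, h1⟩
  · rintro ⟨h1, h2⟩
    exact ⟨⟨h2, mem_range.1 (hS h1)⟩, h1⟩

theorem sum_wm (b : ℕ) : ∑ f ∈ Ico b c, wm (zz c r w I) f =
    (((W c r I (nw w)).filter fun f => b ≤ f).card : ℝ) +
      (((W c r I w).filter fun f => b ≤ f).card : ℝ) := by
  unfold wm zz
  simp only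
  rw [sum_add_distrib, sum_ind (W_sub c r I (nw w)), sum_ind (W_sub c r I w)]

theorem zs_real (b : ℕ) : (zs w b c : ℝ) = ∑ f ∈ Ico b c, (if w f = false then (1 : ℝ) else 0) := by
  unfold zs
  rw [sum_boole]

/-- the windows over the last block when all its lines are opposite to the line 0 -/
theorem sum_wm_le (hw : Cb c r I w) (hcr : c ≤ r) {b : ℕ} (hb : b ≤ c) (h : b = 0 ∨ r + b ∉ I)
    (h1 : ∀ i, b ≤ i → i < c → w (r + i) = !w 0) :
    ∑ f ∈ Ico b c, wm (zz c r w I) f ≤ ∑ f ∈ Ico b c, (if w f = w 0 then (0 : ℝ) else 1) := by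
  rw [sum_wm]
  cases h0 : w 0
  · have h2 := tail_ones hw hcr hb fun i hi hi' => by rw [h1 i hi hi', h0]; rfl
    have h3 := tail_blk (w := nw w) hcr hb h
    rw [h2]
    have h4 : (((W c r I (nw w)).filter fun f => b ≤ f).card : ℝ) ≤ zs (nw w) b c := by
      exact_mod_cast h3
    rw [zs_real] at h4
    have h5 : ∑ f ∈ Ico b c, (if nw w f = false then (1 : ℝ) else 0) =
        ∑ f ∈ Ico b c, (if w f = false then (0 : ℝ) else 1) := by
      refine sum_congr rfl fun f _ => ?_
      unfold nw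
      cases w f <;> simp
    rw [h5] at h4
    push_cast
    linarith
  · have h2 := tail_ones (Cb_nw hw) hcr hb fun i hi hi' => by
      rw [nw_true, h1 i hi hi', h0]
      rfl
    have h3 := tail_blk (w := w) hcr hb h
    rw [h2]
    have h4 : (((W c r I w).filter fun f => b ≤ f).card : ℝ) ≤ zs w b c := by
      exact_mod_cast h3
    rw [zs_real] at h4
    have h5 : ∑ f ∈ Ico b c, (if w f = false then (1 : ℝ) else 0) =
        ∑ f ∈ Ico b c, (if w f = true then (0 : ℝ) else 1) := by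
      refine sum_congr rfl fun f _ => ?_
      cases w f <;> simp
    rw [h5] at h4
    push_cast
    linarith

theorem sum_wm_le' (x : Mk) {b : ℕ} : ∑ f ∈ Ico b c, wm x f ≤ 2 * c := by
  calc ∑ f ∈ Ico b c, wm x f ≤ ∑ _f ∈ Ico b c, (2 : ℝ) := sum_le_sum fun f _ => wm_le x f
    _ = ((c - b : ℕ) : ℝ) * 2 := by rw [sum_const, Nat.card_Ico, nsmul_eq_mul]
    _ ≤ c * 2 := by
      have : ((c - b : ℕ) : ℝ) ≤ c := by exact_mod_cast Nat.sub_le c b
      linarith
    _ = 2 * c := mul_comm _ _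

/-- the base 0 -/
theorem X_zero (hw : Cb c r I w) (hc : 0 < c) (hr : 0 < r) :
    0 ∈ X c r I w ↔ w c = true ∧ w 0 = false := by
  unfold X
  rw [mem_filter, mem_range, Nat.add_zero]
  constructor
  · rintro ⟨_, h1, h2⟩
    exact ⟨h1, h2.1 hc⟩
  · rintro ⟨h1, h2⟩
    refine ⟨hr, h1, fun _ => h2, ?_⟩
    unfold th
    rw [if_pos hc]
    have h3 : rel c w 0 = 1 := by
      unfold rel
      rw [if_pos ⟨hc, h2⟩]
    have h4 : be I r 0 ≤ c := by
      by_contra h5
      have h6 := cb_const hw (Nat.zero_le c) (not_le.1 h5)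
      rw [h1, h2] at h6
      exact absurd h6 (by simp)
    have h5 : sr c r I w 0 = 0 := rfl
    omega

theorem bm_zero (hw : Cb c r I w) (hc : 0 < c) (hr : 0 < r) :
    bm (zz c r w I) 0 = if w c = w 0 then (0 : ℝ) else 1 := by
  have h1 := X_zero hw hc hr
  have h2 := X_zero (Cb_nw hw) hc hr
  rw [nw_true, nw_false] at h2
  have h3 : 0 ∈ (zz c r w I).Z ↔ ¬ w c = w 0 := by
    show 0 ∈ X c r I w ∪ X c r I (nw w) ↔ _
    rw [mem_union, h1, h2]
    cases w c <;> cases w 0 <;> simp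
  by_cases h4 : w c = w 0
  · rw [if_pos h4]
    exact bm_of_not fun h5 => h3.1 h5 h4
  · rw [if_neg h4]
    exact bm_of_mem (h3.2 h4)

/-- summation by parts -/
theorem parts (φ : ℕ → ℝ) {b : ℕ} (hb : b < c) :
    ((c : ℝ) - b) * (-φ (c - 1)) + ∑ f ∈ Ico (b + 1) c, ((f : ℝ) - b) * (φ f - φ (f - 1)) =
      -∑ f ∈ Ico b c, φ f := by
  induction c, Nat.succ_le_of_lt hb using Nat.le_induction with
  | base =>
    rw [Ico_self, sum_empty]
    simp
  | succ k hk ih =>
    have hk' : b < k := hk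
    have ih' := ih hk'
    rw [sum_Ico_succ_top (by omega), sum_Ico_succ_top hk'.le, Nat.add_sub_cancel]
    push_cast
    linarith

end word

section cfg

variable {α : Type} [Fintype α] {N : ℕ} {ρ : ℕ → α → ℕ}

/-- at most two points cross in a step -/
theorem thin (h : ASeq N ρ) {s t m : ℕ} (hst : s ≤ t) (hts : t ≤ s + 1) (ht : t ≤ N) :
    (univ.filter fun a => ¬ (ρ s a < m ↔ ρ t a < m)).card ≤ 2 := by
  classical
  have h1 : (univ.filter fun a => ¬ (ρ s a < m ↔ ρ t a < m)) ⊆
      (univ.filter fun a => ρ s a + 1 = m) ∪ univ.filter fun a => ρ s a = m := by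
    intro a ha
    simp only [mem_filter, mem_univ, true_and, mem_union] at ha ⊢
    rcases Nat.eq_or_lt_of_le hst with h2 | h2
    · rw [h2] at ha
      exact absurd Iff.rfl ha
    · have h3 : t = s + 1 := by omega
      have h4 := h.up s (by omega) a
      have h5 := h.dn s (by omega) a
      rw [h3] at ha
      by_contra h6
      apply ha
      constructor
      · intro h7
        omega
      · intro h7
        omega
  have h2 : (univ.filter fun a => ρ s a + 1 = m).card ≤ 1 := by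
    rw [card_le_one]
    intro a ha b hb
    simp only [mem_filter, mem_univ, true_and] at ha hb
    exact h.inj s (by omega) (by omega)
  have h3 : (univ.filter fun a => ρ s a = m).card ≤ 1 := by
    rw [card_le_one]
    intro a ha b hb
    simp only [mem_filter, mem_univ, true_and] at ha hb
    exact h.inj s (by omega) (by omega)
  have h4 := card_le_card h1
  have h5 := card_union_le (univ.filter fun a => ρ s a + 1 = m) (univ.filter fun a => ρ s a = m)
  omega

theorem thin_wd (h : ASeq N ρ) {m C : ℕ} {τ : ℕ → ℕ} (hτ : Cfg C N τ) {g : ℕ} (h0 : g ≠ 0)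
    (hg : g < C) (hq : gq C N τ g ≤ 1) :
    (univ.filter fun a => ¬ wd ρ m C τ a (g - 1) = wd ρ m C τ a g).card ≤ 2 := by
  have h1 := hτ.mono (g - 1) g (Nat.sub_le _ _) hg
  unfold gq at hq
  rw [if_neg h0] at hq
  refine le_trans (card_le_card ?_) (thin h h1 (t := τ g) (m := m) (by omega) (hτ.le g))
  intro a ha
  simp only [mem_filter, mem_univ, true_and] at ha ⊢
  intro h2
  apply ha
  unfold wd
  rw [decide_eq_decide]
  constructor
  · rintro ⟨_, h3⟩
    exact ⟨hg, h2.1 h3⟩
  · rintro ⟨_, h3⟩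
    exact ⟨by omega, h2.2 h3⟩

/-- swept points, from the line 0 -/
theorem swept (h : ASeq N ρ) {m C : ℕ} (hm : Fintype.card α = 2 * m) {τ : ℕ → ℕ}
    (hτ : Cfg C N τ) {f e : ℕ} (hfe : f ≤ e) (he : e < C) :
    ∑ a, (if wd ρ m C τ a f = wd ρ m C τ a 0 then (0 : ℝ) else 1) ≤
      ∑ a, (if wd ρ m C τ a e = wd ρ m C τ a 0 then (0 : ℝ) else 1) := by
  classical
  rw [← sub_nonneg, ← sum_sub_distrib]
  refine Pool.Agent.H12.TP.pair_sum
    (univ.filter fun a => wd ρ m C τ a f = true)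
    (univ.filter fun a => wd ρ m C τ a e = true) _ ?_ ?_ ?_
  · rw [card_wd h hm hτ.le (by omega), card_wd h hm hτ.le he]
  · intro a ha
    simp only [mem_filter, mem_univ, true_and] at ha
    have e1 : wd ρ m C τ a f = wd ρ m C τ a e := by
      cases h1 : wd ρ m C τ a f
      · cases h2 : wd ρ m C τ a e
        · rfl
        · rw [h1, h2] at ha
          simp at ha
      · exact (ha.1 h1).symm
    rw [e1, sub_self]
  · intro x y hx hx' hy hy'
    simp only [mem_filter, mem_univ, true_and, Bool.not_eq_true] at hx hx' hy hy'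
    rw [hx, hx', hy, hy']
    have hcx := wd_cx (m := m) h hτ x y
    have key : ¬ (wd ρ m C τ x 0 = false ∧ wd ρ m C τ y 0 = true) := by
      rintro ⟨k1, k2⟩
      rcases hcx with ⟨k, h1, h2⟩ | ⟨k, h1, h2⟩
      · rcases lt_or_ge f k with h3 | h3
        · have := h1 f (by omega) h3 hx
          rw [hy] at this
          exact absurd this (by simp)
        · have := h2 e he (by omega) hy'
          rw [hx'] at this
          exact absurd this (by simp)
      · rcases Nat.eq_zero_or_pos k with h3 | h3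
        · have := h2 f (by omega) (by omega) hx
          rw [hy] at this
          exact absurd this (by simp)
        · have := h1 0 (by omega) h3 k2
          rw [k1] at this
          exact absurd this (by simp)
    cases k1 : wd ρ m C τ x 0 <;> cases k2 : wd ρ m C τ y 0
    · norm_num
    · exact absurd ⟨k1, k2⟩ key
    · norm_num
    · norm_num

/-- **the face 0** -/
theorem faceZ (h : ASeq N ρ) {m c r : ℕ} (hm : Fintype.card α = 2 * m) (hc : 0 < c)
    (hcr : c < r) {τ : ℕ → ℕ} (hτ : Cfg (c + r) N τ) (hg : gq (c + r) N τ 0 = 0) {b : ℕ}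
    (hb : b < c) (hb' : b = 0 ∨ 1 ≤ gq (c + r) N τ (r + b))
    (hthin : ∀ f, b < f → f < c → gq (c + r) N τ (r + f) ≤ 1) :
    -(4 * (c : ℝ) ^ 2) ≤ ((c : ℝ) - b) * FH ρ m c r N τ 0 +
      ∑ f ∈ Ico (b + 1) c, ((f : ℝ) - b) * FH ρ m c r N τ (r + f) := by
  classical
  have h0I : 0 ∈ eg (c + r) N τ := (mem_eg hτ (by omega)).2 hg
  have hbI : b = 0 ∨ r + b ∉ eg (c + r) N τ := by
    rcases hb' with h1 | h1
    · exact Or.inl h1
    · right
      rw [mem_eg hτ (by omega)]
      omega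
  have hcst : ∀ a, Cst (c + r) (eg (c + r) N τ) (wd ρ m (c + r) τ a) := fun a =>
    wd_cst h hm (by omega) hτ a
  -- the exceptional points
  obtain ⟨E, hE⟩ : ∃ E : Finset α, E = (Ico (b + 1) c).biUnion fun f =>
    univ.filter fun a => ¬ wd ρ m (c + r) τ a (r + f - 1) = wd ρ m (c + r) τ a (r + f) := ⟨_, rfl⟩
  have hEc : (E.card : ℝ) ≤ 2 * c := by
    have h1 : E.card ≤ ∑ _f ∈ Ico (b + 1) c, 2 := by
      rw [hE]
      refine card_biUnion_le.trans (sum_le_sum fun f hf => ?_)
      rw [mem_Ico] at hf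
      exact thin_wd h hτ (by omega) (by omega) (hthin f (by omega) hf.2)
    rw [sum_const, Nat.card_Ico, smul_eq_mul] at h1
    have h2 : E.card ≤ 2 * c := by omega
    exact_mod_cast h2
  have hEa : ∀ a, a ∉ E → ∀ i, b ≤ i → i < c →
      wd ρ m (c + r) τ a (r + i) = !wd ρ m (c + r) τ a 0 := by
    intro a ha
    have h1 : ∀ i, b ≤ i → i < c →
        wd ρ m (c + r) τ a (r + i) = wd ρ m (c + r) τ a (r + b) := by
      intro i hi
      induction i, hi using Nat.le_induction with
      | base => exact fun _ => rfl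
      | succ i hi ih =>
        intro hic
        rw [← ih (by omega)]
        by_contra h2
        apply ha
        rw [hE, mem_biUnion]
        refine ⟨i + 1, mem_Ico.2 ⟨by omega, hic⟩, ?_⟩
        rw [mem_filter]
        refine ⟨mem_univ _, fun h3 => h2 ?_⟩
        rw [show r + (i + 1) - 1 = r + i by omega] at h3
        exact h3.symm
    have h2 := (hcst a).2 h0I
    rw [show c + r - 1 = r + (c - 1) by omega, h1 (c - 1) (by omega) (by omega)] at h2
    intro i hi hi'
    rw [h1 i hi hi', h2]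
  -- the sum
  have hsum : ((c : ℝ) - b) * FH ρ m c r N τ 0 +
      ∑ f ∈ Ico (b + 1) c, ((f : ℝ) - b) * FH ρ m c r N τ (r + f) =
      ∑ a, (((c : ℝ) - b) * bm (zp ρ m c r N τ a) 0 -
        ∑ f ∈ Ico b c, wm (zp ρ m c r N τ a) f) := by
    unfold FH
    rw [mul_sum]
    have e1 : ∑ f ∈ Ico (b + 1) c, ((f : ℝ) - b) * ∑ a, hf c r (zp ρ m c r N τ a) (r + f) =
        ∑ a, ∑ f ∈ Ico (b + 1) c, ((f : ℝ) - b) * hf c r (zp ρ m c r N τ a) (r + f) := by
      rw [sum_comm]
      refine sum_congr rfl fun f _ => mul_sum _ _ _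
    rw [e1, ← sum_add_distrib]
    refine sum_congr rfl fun a _ => ?_
    rw [hf_zero]
    have e2 : ∑ f ∈ Ico (b + 1) c, ((f : ℝ) - b) * hf c r (zp ρ m c r N τ a) (r + f) =
        ∑ f ∈ Ico (b + 1) c, ((f : ℝ) - b) *
          (wm (zp ρ m c r N τ a) f - wm (zp ρ m c r N τ a) (f - 1)) := by
      refine sum_congr rfl fun f hf => ?_
      rw [mem_Ico] at hf
      rw [hf_gt _ (by omega), Nat.add_sub_cancel_left]
    rw [e2]
    have e3 := parts (c := c) (fun f => wm (zp ρ m c r N τ a) f) hb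
    linarith
  rw [hsum]
  -- pointwise
  have hpt : ∀ a, ∑ f ∈ Ico b c, wm (zp ρ m c r N τ a) f ≤
      ∑ f ∈ Ico b c, (if wd ρ m (c + r) τ a f = wd ρ m (c + r) τ a 0 then (0 : ℝ) else 1) +
        if a ∈ E then 2 * (c : ℝ) else 0 := by
    intro a
    have hp : 0 ≤ ∑ f ∈ Ico b c,
        (if wd ρ m (c + r) τ a f = wd ρ m (c + r) τ a 0 then (0 : ℝ) else 1) := by
      refine sum_nonneg fun f _ => ?_
      split_ifs <;> norm_num
    by_cases ha : a ∈ E
    · rw [if_pos ha]
      have := sum_wm_le' (c := c) (zp ρ m c r N τ a) (b := b)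
      linarith
    · rw [if_neg ha, add_zero]
      exact sum_wm_le (Cst_Cb (hcst a)) hcr.le hb.le hbI (hEa a ha)
  have hb0 : ∀ a, bm (zp ρ m c r N τ a) 0 =
      if wd ρ m (c + r) τ a c = wd ρ m (c + r) τ a 0 then (0 : ℝ) else 1 := fun a =>
    bm_zero (Cst_Cb (hcst a)) hc (by omega)
  rw [sum_sub_distrib, ← mul_sum, sum_congr rfl fun a _ => hb0 a]
  have h3 : ∑ a, ∑ f ∈ Ico b c, wm (zp ρ m c r N τ a) f ≤
      ∑ a, ∑ f ∈ Ico b c,
        (if wd ρ m (c + r) τ a f = wd ρ m (c + r) τ a 0 then (0 : ℝ) else 1) +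
      ∑ a, (if a ∈ E then 2 * (c : ℝ) else 0) := by
    rw [← sum_add_distrib]
    exact sum_le_sum fun a _ => hpt a
  have h4 : ∑ a, (if a ∈ E then 2 * (c : ℝ) else 0) ≤ 4 * (c : ℝ) ^ 2 := by
    rw [sum_ite_mem, univ_inter, sum_const, nsmul_eq_mul]
    nlinarith [Nat.cast_nonneg (α := ℝ) c]
  have h5 : ∑ a, ∑ f ∈ Ico b c,
        (if wd ρ m (c + r) τ a f = wd ρ m (c + r) τ a 0 then (0 : ℝ) else 1) ≤
      ((c : ℝ) - b) *
        ∑ a, (if wd ρ m (c + r) τ a c = wd ρ m (c + r) τ a 0 then (0 : ℝ) else 1) := by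
    rw [sum_comm]
    calc ∑ f ∈ Ico b c, ∑ a,
          (if wd ρ m (c + r) τ a f = wd ρ m (c + r) τ a 0 then (0 : ℝ) else 1)
        ≤ ∑ _f ∈ Ico b c, ∑ a,
          (if wd ρ m (c + r) τ a c = wd ρ m (c + r) τ a 0 then (0 : ℝ) else 1) := by
          refine sum_le_sum fun f hf => ?_
          rw [mem_Ico] at hf
          exact swept h hm hτ hf.2.le (by omega)
      _ = _ := by
          rw [sum_const, Nat.card_Ico, nsmul_eq_mul, Nat.cast_sub hb.le]
  linarith

end cfg

end Pool.Agent.H56.RS
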