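import Pool.Agent.H56.RS.Z

/-!
# H56.RS.NT: faceNp and faceT0 of the rule R*
-/

set_option autoImplicit false
set_option linter.unusedSectionVars false

namespace Pool.Agent.H56.RS

open Finset Pool.Agent.H93.EA Pool.Agent.H69L.TP Pool.Agent.H12.RS Pool.Agent.H53.ES
open Pool.Agent.H85.TK (zs be Cb rel cb_const zs_add zs_le zs_succ be_gt)

section word

variable {c r : ℕ} {I : Finset ℕ} {w : ℕ → Bool}

/-- every released token is used at once -/
theorem sr_nat (hc : 0 < c) (hcr : c < r) (hI : c ∉ I) (h : ∀ T < c, w (c + T) = true) :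
    ∀ T ≤ c, sr c r I w T = 0 := by
  intro T hT
  induction T with
  | zero => rfl
  | succ T ih =>
    have h0 := ih (by omega)
    have h1 := sr_succ c r I w T
    rw [h0, Nat.zero_add] at h1
    by_cases h2 : w T = false
    · have h3 : rel c w T = 1 := Pool.Agent.H85.RS.rel_lt (by omega) h2
      have h4 : be I r T ≤ c := by
        unfold be
        exact Nat.find_min' _ ⟨by omega, Or.inl hI⟩
      have h5 : Ph c r I w T (sr c r I w T) := by
        refine ⟨fun _ => h2, ?_⟩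
        unfold th
        rw [if_pos (by omega), h0, h3]
        omega
      have h6 := Pool.Agent.H85.RS.mk_one (h T (by omega)) h5
      omega
    · have h3 : rel c w T = 0 := Pool.Agent.H85.RS.rel_one (by simpa using h2)
      omega

/-- no mark on the base `c` -/
theorem c_notMem_X (hc : 0 < c) (hcr : c < r) (hI : c ∉ I) (h : ∀ T < c, w (c + T) = true) :
    c ∉ X c r I w := by
  intro h1
  have h2 := sr_nat hc hcr hI h c le_rfl
  unfold X at h1
  rw [mem_filter] at h1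
  have h3 := h1.2.2.2
  rw [h2, Pool.Agent.H85.RS.rel_ge le_rfl] at h3
  have h4 := th_pos c r I c
  omega

theorem bm_c (hc : 0 < c) (hcr : c < r) (hI : c ∉ I) (h : ∀ i, c ≤ i → i ≤ 2 * c → w i = w c) :
    bm (zz c r w I) c = 0 := by
  refine bm_of_not ?_
  have e : w (c + c) = w c := h _ (by omega) (by omega)
  cases h0 : w c
  · rw [mem_Z_zero (by rw [e, h0])]
    refine c_notMem_X hc hcr hI fun T hT => ?_
    rw [nw_true, h _ (by omega) (by omega), h0]
  · rw [mem_Z_one (by rw [e, h0])]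
    refine c_notMem_X hc hcr hI fun T hT => ?_
    rw [h _ (by omega) (by omega), h0]

/-- constant words -/
theorem hf_const (hc : 0 < c) (hcr : c < r) (h : ∀ i, i < r + c → w i = w 0) :
    hf c r (zz c r w I) 0 = -1 := by
  rw [hf_zero]
  have hz : ∀ v : ℕ → Bool, (∀ i < r + c, v i = false) → X c r I v = ∅ ∧ W c r I v = range c := by
    intro v hv
    obtain ⟨h1, h2⟩ := Pool.Agent.H85.RS.X_const_zero (c := c) (r := r) (I := I) hcr.le hv
    refine ⟨h1, ?_⟩
    apply eq_of_subset_of_card_le (W_sub c r I v)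
    rw [W_card hcr.le, h2, card_range]
  have ho : ∀ v : ℕ → Bool, (∀ i < r + c, v i = true) → X c r I v = ∅ ∧ W c r I v = ∅ := by
    intro v hv
    obtain ⟨h1, h2⟩ := Pool.Agent.H85.RS.X_const_one (c := c) (r := r) (I := I) hv
    refine ⟨h1, ?_⟩
    rw [← card_eq_zero, W_card hcr.le, h2]
  cases h0 : w 0
  · obtain ⟨h1, h2⟩ := hz w fun i hi => (h i hi).trans h0
    obtain ⟨h3, h4⟩ := ho (nw w) fun i hi => nw_true.2 ((h i hi).trans h0)
    unfold bm wm zz
    simp only [h1, h2, h3, h4]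
    simp [hc]
  · obtain ⟨h1, h2⟩ := ho w fun i hi => (h i hi).trans h0
    obtain ⟨h3, h4⟩ := hz (nw w) fun i hi => nw_false.2 ((h i hi).trans h0)
    unfold bm wm zz
    simp only [h1, h2, h3, h4]
    simp [hc]

end word

section cfg

variable {α : Type} [Fintype α] {N : ℕ} {ρ : ℕ → α → ℕ}

/-- the exceptional points of thin gaps -/
theorem exc (h : ASeq N ρ) {m C : ℕ} {τ : ℕ → ℕ} (hτ : Cfg C N τ) {i₀ i₁ : ℕ} (hi : i₀ ≤ i₁)
    (hC : i₁ < C) (hth : ∀ g, i₀ < g → g ≤ i₁ → gq C N τ g ≤ 1) :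
    ∃ E : Finset α, (E.card : ℝ) ≤ 2 * i₁ ∧ ∀ a, a ∉ E → ∀ i, i₀ ≤ i → i ≤ i₁ →
      wd ρ m C τ a i = wd ρ m C τ a i₀ := by
  classical
  refine ⟨(Ioc i₀ i₁).biUnion fun g => univ.filter fun a =>
    ¬ wd ρ m C τ a (g - 1) = wd ρ m C τ a g, ?_, ?_⟩
  · have h1 : ((Ioc i₀ i₁).biUnion fun g => univ.filter fun a =>
        ¬ wd ρ m C τ a (g - 1) = wd ρ m C τ a g).card ≤ ∑ _g ∈ Ioc i₀ i₁, 2 := by
      refine card_biUnion_le.trans (sum_le_sum fun g hg => ?_)
      rw [mem_Ioc] at hg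
      exact thin_wd h hτ (by omega) (by omega) (hth g hg.1 hg.2)
    rw [sum_const, Nat.card_Ioc, smul_eq_mul] at h1
    have h2 := h1.trans (show (i₁ - i₀) * 2 ≤ 2 * i₁ by omega)
    exact_mod_cast h2
  · intro a ha i hi0
    induction i, hi0 using Nat.le_induction with
    | base => exact fun _ => rfl
    | succ i hi0 ih =>
      intro hi1
      rw [← ih (by omega)]
      by_contra h2
      apply ha
      rw [mem_biUnion]
      refine ⟨i + 1, mem_Ioc.2 ⟨by omega, hi1⟩, ?_⟩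
      rw [mem_filter]
      refine ⟨mem_univ _, fun h3 => h2 ?_⟩
      rw [Nat.add_sub_cancel] at h3
      exact h3.symm

/-- **faceNp** -/
theorem faceNp (h : ASeq N ρ) {m c r : ℕ} (hc : 0 < c) (hcr : c < r) {τ : ℕ → ℕ}
    (hτ : Cfg (c + r) N τ) (hg : 1 ≤ gq (c + r) N τ c)
    (hth : ∀ g < c + r, g ≠ 0 → g ≠ c → gq (c + r) N τ g ≤ 1) :
    FH ρ m c r N τ c ≤ 4 * c := by
  classical
  have hI : c ∉ eg (c + r) N τ := by
    rw [mem_eg hτ (by omega)]
    omega
  obtain ⟨E, hE, hEa⟩ := exc h hτ (m := m) (i₀ := c) (i₁ := 2 * c) (by omega) (by omega)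
    fun g h1 h2 => hth g (by omega) (by omega) (by omega)
  have hpt : ∀ a, hf c r (zp ρ m c r N τ a) c ≤ if a ∈ E then 1 else 0 := by
    intro a
    rw [hf_lt _ hc.ne' hcr]
    have h1 := bm_nonneg (zp ρ m c r N τ a) (c - 1)
    by_cases ha : a ∈ E
    · rw [if_pos ha]
      have h2 := bm_le (zp ρ m c r N τ a) c
      linarith
    · rw [if_neg ha]
      have h2 : bm (zp ρ m c r N τ a) c = 0 := bm_c hc hcr hI (hEa a ha)
      linarith
  unfold FH
  calc ∑ a, hf c r (zp ρ m c r N τ a) c ≤ ∑ a, (if a ∈ E then (1 : ℝ) else 0) :=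
        sum_le_sum fun a _ => hpt a
    _ = E.card := by rw [sum_ite_mem, univ_inter, sum_const, nsmul_eq_mul, mul_one]
    _ ≤ 4 * c := by
      push_cast at hE
      linarith

/-- **faceT0** -/
theorem faceT0 (h : ASeq N ρ) {m c r : ℕ} (hc : 0 < c) (hcr : c < r) {τ : ℕ → ℕ}
    (hτ : Cfg (c + r) N τ) (hth : ∀ g < c + r, g ≠ 0 → gq (c + r) N τ g ≤ 1) :
    FH ρ m c r N τ 0 ≤ -(Fintype.card α : ℝ) + 4 * (c + r) := by
  classical
  obtain ⟨E, hE, hEa⟩ := exc h hτ (m := m) (i₀ := 0) (i₁ := c + r - 1) (Nat.zero_le _) (by omega)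
    fun g h1 h2 => hth g (by omega) (by omega)
  have hE2 : (E.card : ℝ) ≤ 2 * (c + r) := by
    have : ((c + r - 1 : ℕ) : ℝ) ≤ ((c + r : ℕ) : ℝ) := by exact_mod_cast Nat.sub_le _ _
    push_cast at this
    linarith
  have hpt : ∀ a, hf c r (zp ρ m c r N τ a) 0 ≤ -1 + if a ∈ E then 2 else 0 := by
    intro a
    by_cases ha : a ∈ E
    · rw [if_pos ha, hf_zero]
      have h1 := bm_le (zp ρ m c r N τ a) 0
      have h2 := wm_nonneg (zp ρ m c r N τ a) (c - 1)
      linarith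
    · rw [if_neg ha, add_zero]
      have h1 := hf_const (I := eg (c + r) N τ) hc hcr (w := wd ρ m (c + r) τ a)
        fun i hi => hEa a ha i (Nat.zero_le _) (by omega)
      exact h1.le
  unfold FH
  calc ∑ a, hf c r (zp ρ m c r N τ a) 0 ≤ ∑ a, (-1 + if a ∈ E then (2 : ℝ) else 0) :=
        sum_le_sum fun a _ => hpt a
    _ = -(Fintype.card α : ℝ) + 2 * E.card := by
      rw [sum_add_distrib, sum_ite_mem, univ_inter, sum_const, sum_const, nsmul_eq_mul,
        nsmul_eq_mul, card_univ]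
      ring
    _ ≤ _ := by linarith

end cfg

end Pool.Agent.H56.RS
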